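import Mathlib
import Pool.Agent.H14.Multinom

set_option autoImplicit false

namespace Pool.Agent.Results.MP_675def_co.NotSharp

open Filter Asymptotics Pool.Agent.H14.Multinom

theorem not_bigO {f g : ℕ → ℝ} (h : Tendsto (fun n => f n / g n) atTop atTop) :
    ¬ f =O[atTop] g := by
  intro hO
  obtain ⟨c, hc⟩ := hO.bound
  obtain ⟨n, h1, h2⟩ := (hc.and (h.eventually_gt_atTop (max c 0))).exists
  have hg : g n ≠ 0 := by
    intro h0
    rw [h0, div_zero] at h2
    exact absurd (le_max_right c 0) (not_le.2 h2)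
  have h3 : ‖f n / g n‖ ≤ c := by
    rw [norm_div, div_le_iff₀ (norm_pos_iff.2 hg)]
    exact h1
  have h4 := (le_abs_self _).trans h3
  exact absurd (h4.trans (le_max_left c 0)) (not_le.2 h2)

/-- None of the three lower-bound scales is the true one; explicit larger lower bounds. -/
theorem result :
    (¬ (fun n : ℕ => (C n : ℝ)) =O[atTop] fun n : ℕ => (n : ℝ) ^ 2 * Real.log n) ∧
    (¬ (fun n : ℕ => (D n : ℝ)) =O[atTop] fun n : ℕ => (n : ℝ) ^ (3 / 2 : ℝ) * √(Real.log n)) ∧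
    (¬ (fun n : ℕ => (mu n : ℝ)) =O[atTop] fun n : ℕ => √(n * Real.log n)) ∧
    ∀ n : ℕ, 30 ≤ n → (n : ℝ) ^ 3 / 8000 ≤ D n ∧ D n ≤ C n ∧ (n : ℝ) / 288 ≤ mu n :=
  ⟨not_bigO tendC, not_bigO tendD, not_bigO tendMu, fun n hn =>
    ⟨by linarith [D_ge' n hn], D_le_C n, by linarith [mu_ge' n hn]⟩⟩

end Pool.Agent.Results.MP_675def_co.NotSharp
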